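import Mathlib
import Pool.Agent.H598R2.Deriv
import Pool.Agent.H598R2.Circ
import Pool.Agent.H598R2.Kron

/-!
# Fourier submatrix-vector products with random rows

We answer Q1 of the problem in the negative.

The model of computation is the unit-cost arithmetic model in its most permissive (non-uniform)
form: for every `d`, `R`, `C` the algorithm is an arbitrary computation tree `Prog` on the input
vector `v` (so everything which depends only on `d`, `R`, `C` is free, and arbitrary complex
constants are free).  The nodes of a computation tree are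

* `arith`: one of the operations `+`, `-`, `*`, `/` on complex numbers (cost 1);
* `conj`: complex conjugation (cost 1); with it real parts, imaginary parts and squared absolute
  values can be computed as well;
* `root`: the evaluation of a root of unity `exp(-2πi t/d)`, where `t` is an arbitrary
  integer valued function of the input and of all values computed so far (cost 1);
* `branch`: a branching according to an arbitrary test on the input and on all values computed so
  far, with countably many outcomes (cost 1); this covers comparisons, sign tests, rounding and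
  indirect addressing;
* `output`: halt and output, for every row index, an input coordinate, a computed value or a
  constant (cost 0).
-/

open MvPolynomial Filter Asymptotics

namespace Pool.Agent.Results.MP_d958de_lc.NoSubquadratic

open Pool.Agent.H598R2

/-- The four arithmetic operations on complex numbers. -/
inductive ArithOp
  | add
  | sub
  | mul
  | div

/-- The meaning of an arithmetic operation (division by zero gives `0`, as in Mathlib). -/
noncomputable def ArithOp.apply : ArithOp → ℂ → ℂ → ℂ
  | .add, x, y => x + y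
  | .sub, x, y => x - y
  | .mul, x, y => x * y
  | .div, x, y => x / y

/-- An operand of an instruction: a coordinate of the input vector (indexed by `ι`), the value
produced by the `i`-th value-producing instruction executed so far, or a complex constant. -/
inductive Operand (ι : Type)
  | input (c : ι)
  | val (i : ℕ)
  | const (z : ℂ)

/-- The value of an operand on the input vector `v`, where `h` is the list of the values computed
so far. -/
noncomputable def Operand.eval {ι : Type} (v : ι → ℂ) (h : List ℂ) : Operand ι → ℂ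
  | .input c => v c
  | .val i => h.getD i 0
  | .const z => z

/-- Computation trees with inputs indexed by `ι` and outputs indexed by `κ`. -/
inductive Prog (ι κ : Type)
  | output (o : κ → Operand ι)
  | arith (op : ArithOp) (x y : Operand ι) (next : Prog ι κ)
  | conj (x : Operand ι) (next : Prog ι κ)
  | root (t : (ι → ℂ) → List ℂ → ℤ) (next : Prog ι κ)
  | branch (test : (ι → ℂ) → List ℂ → ℕ) (next : ℕ → Prog ι κ)

/-- The output of a computation tree on the input vector `v`; `h` is the list of the values
computed so far, and `d` is the order of the roots of unity. -/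
noncomputable def Prog.eval {ι κ : Type} (d : ℕ) (v : ι → ℂ) : Prog ι κ → List ℂ → κ → ℂ
  | .output o, h => fun r => (o r).eval v h
  | .arith op x y next, h => next.eval d v (h ++ [op.apply (x.eval v h) (y.eval v h)])
  | .conj x next, h => next.eval d v (h ++ [(starRingEnd ℂ) (x.eval v h)])
  | .root t next, h =>
      next.eval d v (h ++ [Complex.exp (-(2 * Real.pi * Complex.I * (t v h : ℂ) / d))])
  | .branch test next, h => (next (test v h)).eval d v h

/-- The running time of a computation tree on the input vector `v`: the number of arithmetic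
operations, conjugations, evaluations of roots of unity and tests which are executed. -/
noncomputable def Prog.time {ι κ : Type} (d : ℕ) (v : ι → ℂ) : Prog ι κ → List ℂ → ℕ
  | .output _, _ => 0
  | .arith op x y next, h => next.time d v (h ++ [op.apply (x.eval v h) (y.eval v h)]) + 1
  | .conj x next, h => next.time d v (h ++ [(starRingEnd ℂ) (x.eval v h)]) + 1
  | .root t next, h =>
      next.time d v (h ++ [Complex.exp (-(2 * Real.pi * Complex.I * (t v h : ℂ) / d))]) + 1
  | .branch test next, h => (next (test v h)).time d v h + 1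

/-- A (non-uniform) algorithm: a computation tree for every `d` and all sets `R`, `C` of rows and
columns. The input vector is indexed by `C`, the output vector by `R`. -/
def Algorithm : Type := ∀ (d : ℕ) (R C : Finset (Fin d)), Prog C R

/-- The entry `F_{jk} = d^{-1/2} e^{-2πi jk/d}` of the discrete Fourier matrix. -/
noncomputable def fourier (d : ℕ) (j k : Fin d) : ℂ :=
  ((Real.sqrt d)⁻¹ : ℝ) * Complex.exp (-(2 * Real.pi * Complex.I * (j : ℕ) * (k : ℕ) / d))

/-- The algorithm computes `F_{RC} v` for all `d`, all `R`, `C` of equal size and all `v`. -/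
def Computes (A : Algorithm) : Prop :=
  ∀ (d : ℕ) (R C : Finset (Fin d)), R.card = C.card → ∀ (v : C → ℂ) (r : R),
    (A d R C).eval d v [] r = ∑ c : C, fourier d r c * v c

/-- The running time of the algorithm on the input `(d, R, C, v)`. -/
noncomputable def steps (A : Algorithm) (d : ℕ) (R C : Finset (Fin d)) (v : C → ℂ) : ℕ :=
  (A d R C).time d v []

/-- The expected running time when `R` is a uniformly random `m`-subset of `{0, …, d-1}`. -/
noncomputable def expectedSteps (A : Algorithm) (m d : ℕ) (C : Finset (Fin d)) (v : C → ℂ) : ℝ :=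
  (∑ R ∈ (Finset.univ : Finset (Fin d)).powersetCard m, (steps A d R C v : ℝ)) / d.choose m

open Classical in
/-- The probability, over a uniformly random `m`-subset `R` of `{0, …, d-1}`, that the running
time exceeds `T`. -/
noncomputable def probExceeds (A : Algorithm) (m d : ℕ) (C : Finset (Fin d)) (v : C → ℂ)
    (T : ℝ) : ℝ :=
  ((((Finset.univ : Finset (Fin d)).powersetCard m).filter
    (fun R => T < (steps A d R C v : ℝ))).card : ℝ) / d.choose m

/-- Q1: there is an algorithm which computes `F_{RC} v`, and a function `T(m) = o(m²)`, such that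
(a) for all sufficiently large `m`, all `d ≥ m`, all `C` with `|C| = m` and all `v`, the expected
running time over `R` is at most `T m`, or (b) for some constant `c > 0`, for all sufficiently
large `m`, all `d ≥ m`, all `C` with `|C| = m` and all `v`, the running time exceeds `T m` with
probability at most `m^{-c}` over `R`. (Asking for the bounds only for large `m` makes the negation
of the question formally stronger.) -/
def Question1 : Prop :=
  ∃ (A : Algorithm) (T : ℕ → ℝ), Computes A ∧ T =o[atTop] (fun m : ℕ => (m : ℝ) ^ 2) ∧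
    ((∀ᶠ m : ℕ in atTop, ∀ d : ℕ, m ≤ d → ∀ C : Finset (Fin d), C.card = m → ∀ v : C → ℂ,
        expectedSteps A m d C v ≤ T m) ∨
      (∃ c : ℝ, 0 < c ∧ ∀ᶠ m : ℕ in atTop, ∀ d : ℕ, m ≤ d → ∀ C : Finset (Fin d), C.card = m →
        ∀ v : C → ℂ, probExceeds A m d C v (T m) ≤ (m : ℝ) ^ (-c)))

/-! ### Constants of a computation tree -/

/-- the constants of an operand -/
def Operand.consts {ι : Type} : Operand ι → Set ℂ
  | .input _ => ∅
  | .val _ => ∅
  | .const z => {z}

theorem Operand.consts_countable {ι : Type} (x : Operand ι) : x.consts.Countable := by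
  cases x <;> simp [Operand.consts]

/-- the constants of a computation tree -/
def Prog.consts {ι κ : Type} : Prog ι κ → Set ℂ
  | .output o => ⋃ r, (o r).consts
  | .arith _ x y next => x.consts ∪ y.consts ∪ next.consts
  | .conj x next => x.consts ∪ next.consts
  | .root _ next => next.consts
  | .branch _ next => ⋃ i, (next i).consts

theorem Prog.consts_countable {ι κ : Type} [Countable κ] (P : Prog ι κ) :
    P.consts.Countable := by
  induction P with
  | output o => exact Set.countable_iUnion fun r => (o r).consts_countable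
  | arith op x y next ih => exact (x.consts_countable.union y.consts_countable).union ih
  | conj x next ih => exact x.consts_countable.union ih
  | root t next ih => exact ih
  | branch test next ih => exact Set.countable_iUnion ih

/-! ### Simulation by a linear circuit -/

theorem deriv_arith (op : ArithOp) (x y : ℂ) :
    ∃ α β : ℂ, ∀ D : Derivation ℚ ℂ ℂ, D (op.apply x y) = α * D x + β * D y := by
  cases op with
  | add => exact ⟨1, 1, fun D => by simp [ArithOp.apply]⟩
  | sub => exact ⟨1, -1, fun D => by simp [ArithOp.apply]; ring⟩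
  | mul => exact ⟨y, x, fun D => by simp [ArithOp.apply, Derivation.leibniz]; ring⟩
  | div =>
    by_cases hy : y = 0
    · exact ⟨0, 0, fun D => by simp [ArithOp.apply, hy]⟩
    · refine ⟨y⁻¹, -(x / y ^ 2), fun D => ?_⟩
      simp only [ArithOp.apply]
      rw [Derivation.leibniz_div]
      simp only [smul_eq_mul]
      field_simp
      ring

theorem conj_arith (op : ArithOp) (x y : ℂ) :
    (starRingEnd ℂ) (op.apply x y) = op.apply ((starRingEnd ℂ) x) ((starRingEnd ℂ) y) := by
  cases op <;> simp [ArithOp.apply]

theorem deriv_root (D : Derivation ℚ ℂ ℂ) {d : ℕ} (hd : d ≠ 0) {z : ℂ} (hz : z ^ d = 1) :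
    D z = 0 := by
  have h1 : D (z ^ d) = 0 := by rw [hz]; simp
  rw [Derivation.leibniz_pow] at h1
  have hz0 : z ≠ 0 := by
    rintro rfl
    rw [zero_pow hd] at hz
    exact zero_ne_one hz
  simpa [hd, hz0] using h1

theorem root_pow {d : ℕ} (hd : d ≠ 0) (t : ℤ) :
    Complex.exp (-(2 * Real.pi * Complex.I * (t : ℂ) / d)) ^ d = 1 := by
  rw [← Complex.exp_nat_mul, Complex.exp_eq_one_iff]
  refine ⟨-t, ?_⟩
  have : (d : ℂ) ≠ 0 := by exact_mod_cast hd
  push_cast
  field_simp

section Simulation

variable {ι κ : Type} [DecidableEq ι] {m : ℕ} (e : Fin m ≃ ι) (v : ι → ℂ)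
  (D : ι → Derivation ℚ ℂ ℂ)

/-- the gradient of a complex number -/
noncomputable def grad (z : ℂ) : Fin m → ℂ := fun c => D (e c) z

/-- `L` contains the gradients of all inputs and of the computed values `h` and their conjugates,
at places recorded by `a` -/
structure Good (L : List (Fin m → ℂ)) (h : List ℂ) (a : ℕ → ℕ × ℕ) : Prop where
  input : ∀ c : Fin m, L.getD c 0 = Pi.single c 1
  le : m ≤ L.length
  lt : ∀ i < h.length, (a i).1 < L.length ∧ (a i).2 < L.length
  val : ∀ i < h.length, L.getD (a i).1 0 = grad e D (h.getD i 0)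
  conj : ∀ i < h.length, L.getD (a i).2 0 = grad e D ((starRingEnd ℂ) (h.getD i 0))

variable {e v D}

omit [DecidableEq ι] in
theorem grad_zero : grad e D 0 = 0 := by
  funext c; simp [grad]

/-- place of the gradient of an operand -/
theorem Good.operand {L : List (Fin m → ℂ)} {h : List ℂ} {a : ℕ → ℕ × ℕ} {Z : ℕ}
    (hG : Good e D L h a) (hZ : L.length ≤ Z)
    (hv : ∀ c c', D c (v c') = if c' = c then 1 else 0)
    (hv' : ∀ c c', D c ((starRingEnd ℂ) (v c')) = 0)
    (x : Operand ι) (hx : ∀ c, ∀ s ∈ x.consts, D c s = 0 ∧ D c ((starRingEnd ℂ) s) = 0) :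
    ∃ i j : ℕ, (i < L.length ∨ i = Z) ∧ (j < L.length ∨ j = Z) ∧
      L.getD i 0 = grad e D (x.eval v h) ∧
      L.getD j 0 = grad e D ((starRingEnd ℂ) (x.eval v h)) := by
  cases x with
  | input c =>
    refine ⟨(e.symm c : ℕ), Z, Or.inl ((e.symm c).2.trans_le hG.le), Or.inr rfl, ?_, ?_⟩
    · rw [hG.input]
      funext k
      simp only [grad, Operand.eval, hv, Pi.single_apply]
      congr 1
      rw [eq_iff_iff, Equiv.eq_symm_apply, eq_comm]
    · rw [getD_of_le _ hZ]
      funext k
      simp [grad, Operand.eval, hv']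
  | val i =>
    by_cases hi : i < h.length
    · exact ⟨(a i).1, (a i).2, Or.inl (hG.lt i hi).1, Or.inl (hG.lt i hi).2, hG.val i hi,
        hG.conj i hi⟩
    · refine ⟨Z, Z, Or.inr rfl, Or.inr rfl, ?_, ?_⟩
      · rw [getD_of_le _ hZ, Operand.eval, List.getD_eq_default _ _ (not_lt.1 hi), grad_zero]
      · rw [getD_of_le _ hZ, Operand.eval, List.getD_eq_default _ _ (not_lt.1 hi), map_zero,
          grad_zero]
  | const z =>
    refine ⟨Z, Z, Or.inr rfl, Or.inr rfl, ?_, ?_⟩
    · rw [getD_of_le _ hZ]
      funext k
      simp [grad, Operand.eval, (hx (e k) z rfl).1]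
    · rw [getD_of_le _ hZ]
      funext k
      simp [grad, Operand.eval, (hx (e k) z rfl).2]

omit [DecidableEq ι] in
/-- extension of `Good` by one value -/
theorem Good.step {L : List (Fin m → ℂ)} {h : List ℂ} {a : ℕ → ℕ × ℕ}
    (hG : Good e D L h a) (z : ℂ) (g g' : (ℕ × ℕ) × (ℂ × ℂ))
    (hg : g.2.1 • L.getD g.1.1 0 + g.2.2 • L.getD g.1.2 0 = grad e D z)
    (hg' : g'.2.1 • (linStep L g).getD g'.1.1 0 + g'.2.2 • (linStep L g).getD g'.1.2 0 =
      grad e D ((starRingEnd ℂ) z)) :
    Good e D (linStep (linStep L g) g') (h ++ [z])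
      (fun i => if i < h.length then a i else (L.length, L.length + 1)) := by
  have hlen : ∀ i, i < L.length → (linStep (linStep L g) g').getD i 0 = L.getD i 0 := by
    intro i hi
    rw [getD_linStep_of_lt _ _ (by rw [length_linStep]; omega), getD_linStep_of_lt _ _ hi]
  refine ⟨?_, ?_, ?_, ?_, ?_⟩
  · intro c
    rw [hlen _ (lt_of_lt_of_le c.2 hG.le)]
    exact hG.input c
  · rw [length_linStep, length_linStep]
    have := hG.le
    omega
  · intro i _
    simp only [length_linStep]
    split_ifs with hi
    · have := hG.lt i hi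
      omega
    · exact ⟨by dsimp only; omega, by dsimp only; omega⟩
  · intro i hi
    by_cases hi' : i < h.length
    · rw [if_pos hi', hlen _ (hG.lt i hi').1, List.getD_append _ _ _ _ hi']
      exact hG.val i hi'
    · have hie : i = h.length := by
        simp only [List.length_append, List.length_cons, List.length_nil] at hi
        omega
      subst hie
      rw [if_neg hi']
      dsimp only
      rw [getD_linStep_of_lt _ _ (by rw [length_linStep]; omega), getD_linStep_self, hg]
      congr 1
      simp
  · intro i hi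
    by_cases hi' : i < h.length
    · rw [if_pos hi', hlen _ (hG.lt i hi').2, List.getD_append _ _ _ _ hi']
      exact hG.conj i hi'
    · have hie : i = h.length := by
        simp only [List.length_append, List.length_cons, List.length_nil] at hi
        omega
      subst hie
      rw [if_neg hi']
      dsimp only
      have h1 : L.length + 1 = (linStep L g).length := (length_linStep _ _).symm
      rw [h1, getD_linStep_self, hg']
      congr 1
      simp

theorem getD_linStep_far (L : List (Fin m → ℂ)) (g) {i Z : ℕ} (hi : i < L.length ∨ i = Z)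
    (hZ : L.length + 1 ≤ Z) : (linStep L g).getD i 0 = L.getD i 0 := by
  rcases hi with hi | rfl
  · exact getD_linStep_of_lt _ _ hi
  · rw [getD_of_le _ (by rw [length_linStep]; exact hZ), getD_of_le _ (by omega)]

/-- a run of a computation tree is simulated by a linear circuit computing all gradients -/
theorem simulate {d Z : ℕ} (hd : d ≠ 0) (hv : ∀ c c', D c (v c') = if c' = c then 1 else 0)
    (hv' : ∀ c c', D c ((starRingEnd ℂ) (v c')) = 0) (P : Prog ι κ)
    (hP : ∀ c, ∀ s ∈ P.consts, D c s = 0 ∧ D c ((starRingEnd ℂ) s) = 0) :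
    ∀ (h : List ℂ) (L : List (Fin m → ℂ)) (a : ℕ → ℕ × ℕ), Good e D L h a →
      L.length + 2 * P.time d v h ≤ Z →
      ∃ gs : List ((ℕ × ℕ) × (ℂ × ℂ)), gs.length ≤ 2 * P.time d v h ∧
        (∀ g ∈ gs, g.1.1 ≤ Z ∧ g.1.2 ≤ Z) ∧
        ∃ out : κ → ℕ, (∀ r, out r ≤ Z) ∧
          ∀ r, (lin L gs).getD (out r) 0 = grad e D (P.eval d v h r) := by
  induction P with
  | output o =>
    intro h L a hG hZ
    have hZ' : L.length ≤ Z := by
      simpa [Prog.time] using hZ
    choose i j hi hj h1 h2 using fun r => hG.operand hZ' hv hv' (o r)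
      (fun c s hs => hP c s (Set.mem_iUnion.2 ⟨r, hs⟩))
    refine ⟨[], Nat.zero_le _, by simp, i, fun r => ?_, fun r => ?_⟩
    · rcases hi r with h3 | h3 <;> omega
    · simpa [Prog.eval] using h1 r
  | arith op x y next ih =>
    intro h L a hG hZ
    simp only [Prog.time] at hZ ⊢
    have hx := fun c s hs => hP c s (Or.inl (Or.inl hs))
    have hy := fun c s hs => hP c s (Or.inl (Or.inr hs))
    have hn := fun c s hs => hP c s (Or.inr hs)
    obtain ⟨i, j, hi, hj, hi', hj'⟩ := hG.operand (Z := Z) (by omega) hv hv' x hx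
    obtain ⟨k, l, hk, hl, hk', hl'⟩ := hG.operand (Z := Z) (by omega) hv hv' y hy
    obtain ⟨α, β, hαβ⟩ := deriv_arith op (x.eval v h) (y.eval v h)
    obtain ⟨α', β', hαβ'⟩ := deriv_arith op ((starRingEnd ℂ) (x.eval v h))
      ((starRingEnd ℂ) (y.eval v h))
    have hgood := hG.step (op.apply (x.eval v h) (y.eval v h)) ((i, k), (α, β))
      ((j, l), (α', β')) (by
        dsimp only
        rw [hi', hk']
        funext c
        simp [grad, hαβ]) (by
        dsimp only
        rw [getD_linStep_far L _ hj (by omega), getD_linStep_far L _ hl (by omega), hj', hl',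
          conj_arith]
        funext c
        simp [grad, hαβ'])
    obtain ⟨gs, h1, h2, out, h3, h4⟩ := ih hn _ _ _ hgood (by
      simp only [length_linStep]; omega)
    refine ⟨((i, k), (α, β)) :: ((j, l), (α', β')) :: gs, ?_, ?_, out, h3, h4⟩
    · simp only [List.length_cons]; omega
    · intro g hg
      simp only [List.mem_cons] at hg
      rcases hg with rfl | rfl | hg
      · dsimp only; omega
      · dsimp only; omega
      · exact h2 g hg
  | conj x next ih =>
    intro h L a hG hZ
    simp only [Prog.time] at hZ ⊢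
    have hx := fun c s hs => hP c s (Or.inl hs)
    have hn := fun c s hs => hP c s (Or.inr hs)
    obtain ⟨i, j, hi, hj, hi', hj'⟩ := hG.operand (Z := Z) (by omega) hv hv' x hx
    have hgood := hG.step ((starRingEnd ℂ) (x.eval v h)) ((j, j), (1, 0))
      ((i, i), (1, 0)) (by
        dsimp only
        rw [hj']
        simp) (by
        dsimp only
        rw [getD_linStep_far L _ hi (by omega), hi']
        simp)
    obtain ⟨gs, h1, h2, out, h3, h4⟩ := ih hn _ _ _ hgood (by
      simp only [length_linStep]; omega)
    refine ⟨((j, j), (1, 0)) :: ((i, i), (1, 0)) :: gs, ?_, ?_, out, h3, h4⟩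
    · simp only [List.length_cons]; omega
    · intro g hg
      simp only [List.mem_cons] at hg
      rcases hg with rfl | rfl | hg
      · dsimp only; omega
      · dsimp only; omega
      · exact h2 g hg
  | root t next ih =>
    intro h L a hG hZ
    simp only [Prog.time] at hZ ⊢
    have hroot := root_pow hd (t v h)
    have hroot' : ((starRingEnd ℂ) (Complex.exp (-(2 * Real.pi * Complex.I * (t v h : ℂ) / d)))) ^ d
        = 1 := by
      rw [← map_pow, hroot, map_one]
    have hgood := hG.step (Complex.exp (-(2 * Real.pi * Complex.I * (t v h : ℂ) / d)))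
      ((Z, Z), (0, 0)) ((Z, Z), (0, 0)) (by
        funext c
        simp only [grad]
        rw [deriv_root _ hd hroot]
        simp) (by
        funext c
        simp only [grad]
        rw [deriv_root _ hd hroot']
        simp)
    obtain ⟨gs, h1, h2, out, h3, h4⟩ := ih hP _ _ _ hgood (by
      simp only [length_linStep]; omega)
    refine ⟨((Z, Z), (0, 0)) :: ((Z, Z), (0, 0)) :: gs, ?_, ?_, out, h3, h4⟩
    · simp only [List.length_cons]; omega
    · intro g hg
      simp only [List.mem_cons] at hg
      rcases hg with rfl | rfl | hg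
      · exact ⟨le_rfl, le_rfl⟩
      · exact ⟨le_rfl, le_rfl⟩
      · exact h2 g hg
  | branch test next ih =>
    intro h L a hG hZ
    simp only [Prog.time] at hZ ⊢
    obtain ⟨gs, h1, h2, h3⟩ := ih (test v h)
      (fun c s hs => hP c s (Set.mem_iUnion.2 ⟨_, hs⟩)) h L a hG (by omega)
    exact ⟨gs, by omega, h2, h3⟩

end Simulation

/-- If a computation tree computes a linear map on a generic vector within `T` steps, then the
matrix belongs to `LinSet m (2 * T)`. -/
theorem mem_linSet {ι κ : Type} [DecidableEq ι] {m d T : ℕ} (hd : d ≠ 0) (e : Fin m ≃ ι)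
    (e' : Fin m ≃ κ) {v : ι → ℂ} {D : ι → Derivation ℚ ℂ ℂ}
    (hv : ∀ c c', D c (v c') = if c' = c then 1 else 0)
    (hv' : ∀ c c', D c ((starRingEnd ℂ) (v c')) = 0) (P : Prog ι κ)
    (hP : ∀ c, ∀ s ∈ P.consts, D c s = 0 ∧ D c ((starRingEnd ℂ) s) = 0)
    (hT : P.time d v [] ≤ T) :
    (fun j c => D (e c) (P.eval d v [] (e' j))) ∈ LinSet m (2 * T) := by
  have hlen : (linInit ℂ m).length = m := by simp [linInit]
  have hgood : Good e D (linInit ℂ m) [] (fun _ => (0, 0)) := by
    refine ⟨?_, hlen.ge, by simp, by simp, by simp⟩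
    intro c
    rw [linInit]
    rw [List.getD_eq_getElem _ _ (by simp)]
    simp
  obtain ⟨gs, h1, h2, out, h3, h4⟩ := simulate (Z := m + 2 * T) hd hv hv' P hP [] (linInit ℂ m)
    _ hgood (by rw [hlen]; omega)
  refine mem_linSet_of_le gs (h1.trans (by omega)) h2 (fun j => out (e' j)) (fun j => h3 _)
    (fun j => ?_)
  rw [h4]
  rfl

theorem pow_le_choose_mul {m d : ℕ} (h : 2 * m ≤ d) :
    d ^ m ≤ 2 ^ m * m.factorial * d.choose m := by
  have h1 : (d + 1 - m) ^ m ≤ m.factorial * d.choose m := by
    have := Nat.pow_sub_le_descFactorial d m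
    rwa [Nat.descFactorial_eq_factorial_mul_choose] at this
  calc d ^ m ≤ (2 * (d + 1 - m)) ^ m := Nat.pow_le_pow_left (by omega) m
    _ = 2 ^ m * (d + 1 - m) ^ m := by rw [mul_pow]
    _ ≤ 2 ^ m * (m.factorial * d.choose m) := Nat.mul_le_mul_left _ h1
    _ = _ := by ring

open Classical in
/-- The quantitative lower bound: for suitable `d` and `C` and a suitable (generic) `v`, for almost
all `R` the running time exceeds `T`, as soon as `4 T + 1 < m²`. -/
theorem lower_bound (A : Algorithm) (hA : Computes A) {m T : ℕ} (hT : 4 * T + 1 < m ^ 2)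
    {ε : ℝ} (hε : 0 < ε) :
    ∃ d : ℕ, m ≤ d ∧ ∃ C : Finset (Fin d), C.card = m ∧ ∃ v : C → ℂ,
      ((((Finset.univ : Finset (Fin d)).powersetCard m).filter
        (fun R => steps A d R C v ≤ T)).card : ℝ) ≤ ε * d.choose m := by
  obtain ⟨H, hH0, hH⟩ := exists_annihilator (m := m) (n := 2 * T) (by omega)
  set B := H.totalDegree + 2 with hB
  have hB2 : 2 ≤ B := by omega
  have hG0 : kron B H ≠ 0 := by
    apply kron_ne_zero hH0
    intro s hs p
    have h1 : s p ≤ s.sum fun _ n => n := by
      rw [Finsupp.sum_fintype _ _ (fun _ => rfl)]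
      exact Finset.single_le_sum (f := fun q => s q) (fun q _ => Nat.zero_le _) (Finset.mem_univ p)
    have h2 := le_totalDegree hs
    omega
  obtain ⟨N, hN⟩ := exists_nat_ge
    (((kron B H).totalDegree : ℝ) * (2 ^ m * m.factorial) / ε)
  set d := N + B ^ m + 2 * m + 1 with hd
  have hd0 : d ≠ 0 := by omega
  have hdm : 2 * m ≤ d := by omega
  have hBd : ∀ k : Fin m, B ^ (k : ℕ) < d := by
    intro k
    have : B ^ (k : ℕ) ≤ B ^ m := Nat.pow_le_pow_right (by omega) k.2.le
    omega
  let c : Fin m → Fin d := fun k => ⟨B ^ (k : ℕ), hBd k⟩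
  have hc : Function.Injective c := by
    intro a b hab
    have h1 : B ^ (a : ℕ) = B ^ (b : ℕ) := congrArg Fin.val hab
    exact Fin.ext (Nat.pow_right_injective hB2 h1)
  let C : Finset (Fin d) := Finset.univ.image c
  have hC : C.card = m := by
    rw [Finset.card_image_of_injective _ hc, Finset.card_univ, Fintype.card_fin]
  let e0 : Fin m → C := fun k => ⟨c k, Finset.mem_image_of_mem _ (Finset.mem_univ k)⟩
  have he0 : Function.Bijective e0 := by
    constructor
    · intro a b hab
      exact hc (congrArg Subtype.val hab)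
    · rintro ⟨x, hx⟩
      obtain ⟨k, -, rfl⟩ := Finset.mem_image.1 hx
      exact ⟨k, rfl⟩
  let e : Fin m ≃ C := Equiv.ofBijective e0 he0
  let S0 : Set ℂ := (⋃ R : Finset (Fin d), (A d R C).consts) ∪
    Set.range (fun p : Fin d × Fin d => fourier d p.1 p.2)
  have hS0 : S0.Countable :=
    (Set.countable_iUnion fun R => Prog.consts_countable _).union (Set.countable_range _)
  let S : Set ℂ := S0 ∪ (starRingEnd ℂ) '' S0
  have hS : S.Countable := hS0.union (hS0.image _)
  obtain ⟨v, D, hD, hv, hv'⟩ := exists_dual_system C S hS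
  refine ⟨d, by omega, C, hC, v, ?_⟩
  -- every `R` with few steps is a zero of the polynomial
  have hsub : (((Finset.univ : Finset (Fin d)).powersetCard m).filter
      (fun R => steps A d R C v ≤ T)) ⊆
      (((Finset.univ : Finset (Fin d)).powersetCard m).filter (fun R => ∃ h : R.card = m,
        eval (fun j => om d ^ (R.orderEmbOfFin h j : ℕ)) (kron B H) = 0)) := by
    intro R hR
    simp only [Finset.mem_filter, Finset.mem_powersetCard, Finset.subset_univ, true_and] at hR ⊢
    obtain ⟨hRm, hRT⟩ := hR
    refine ⟨hRm, hRm, ?_⟩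
    have hmem := mem_linSet (T := T) hd0 e (R.orderIsoOfFin hRm).toEquiv hv hv' (A d R C)
      (fun k s hs => ⟨hD k s (Or.inl (Or.inl (Set.mem_iUnion.2 ⟨R, hs⟩))),
        hD k _ (Or.inr ⟨s, Or.inl (Set.mem_iUnion.2 ⟨R, hs⟩), rfl⟩)⟩) hRT
    have hval := hH _ hmem ((Real.sqrt d : ℝ) : ℂ)
    rw [eval_kron]
    have hsq : ((Real.sqrt d : ℝ) : ℂ) ≠ 0 := by
      have : (0 : ℝ) < d := by exact_mod_cast Nat.pos_of_ne_zero hd0
      exact_mod_cast (Real.sqrt_pos.2 this).ne'
    rw [← hval]
    congr 2
    funext p
    obtain ⟨j, k⟩ := p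
    have h1 : D (e k) ((A d R C).eval d v [] ((R.orderIsoOfFin hRm).toEquiv j)) =
        fourier d ((R.orderIsoOfFin hRm j : R) : Fin d) (c k) := by
      rw [hA d R C (by rw [hRm, hC])]
      rw [map_sum, Finset.sum_eq_single (e k)]
      · rw [Derivation.leibniz, hv, if_pos rfl,
          hD (e k) _ (Or.inl (Or.inr ⟨(_, _), rfl⟩))]
        simp [e, e0]
      · intro x _ hx
        rw [Derivation.leibniz, hv, if_neg hx,
          hD (e k) _ (Or.inl (Or.inr ⟨(_, _), rfl⟩))]
        simp
      · intro h
        exact absurd (Finset.mem_univ _) h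
    simp only [h1]
    rw [fourier, Complex.ofReal_inv, ← mul_assoc, mul_inv_cancel₀ hsq, one_mul, ← pow_mul, om,
      ← Complex.exp_nat_mul]
    congr 1
    simp only [Finset.coe_orderIsoOfFin_apply, c]
    push_cast
    ring
  have hbad := count_bad (m := m) hG0 hd0
  have h1 := (Nat.mul_le_mul_right d (Finset.card_le_card hsub)).trans hbad
  have h2 : (((Finset.univ : Finset (Fin d)).powersetCard m).filter
      (fun R => steps A d R C v ≤ T)).card * d ≤
      (kron B H).totalDegree * (2 ^ m * m.factorial * d.choose m) :=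
    h1.trans (Nat.mul_le_mul_left _ (pow_le_choose_mul hdm))
  have h3 : ((((Finset.univ : Finset (Fin d)).powersetCard m).filter
      (fun R => steps A d R C v ≤ T)).card : ℝ) * d ≤
      (kron B H).totalDegree * (2 ^ m * m.factorial * d.choose m) := by exact_mod_cast h2
  have hdpos : (0 : ℝ) < d := by exact_mod_cast Nat.pos_of_ne_zero hd0
  have h4 : ((kron B H).totalDegree : ℝ) * (2 ^ m * m.factorial) ≤ ε * d := by
    rw [div_le_iff₀ hε] at hN
    have : (N : ℝ) ≤ d := by
      rw [hd]; push_cast; nlinarith [show (0 : ℝ) ≤ (B : ℝ) ^ m by positivity,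
        show (0 : ℝ) ≤ (m : ℝ) by positivity]
    nlinarith
  have h5 : ((((Finset.univ : Finset (Fin d)).powersetCard m).filter
      (fun R => steps A d R C v ≤ T)).card : ℝ) * d ≤ (ε * d.choose m) * d := by
    refine h3.trans ?_
    have : (0 : ℝ) ≤ d.choose m := by positivity
    nlinarith
  exact le_of_mul_le_mul_right h5 hdpos

open Classical in
theorem card_split (A : Algorithm) (m d : ℕ) (C : Finset (Fin d)) (v : C → ℂ) (T : ℕ) :
    ((((Finset.univ : Finset (Fin d)).powersetCard m).filter
        (fun R => steps A d R C v ≤ T)).card : ℝ) +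
      (((Finset.univ : Finset (Fin d)).powersetCard m).filter
        (fun R => ¬ steps A d R C v ≤ T)).card = d.choose m := by
  have h := Finset.card_filter_add_card_filter_not (s := (Finset.univ : Finset (Fin d)).powersetCard m)
    (fun R => steps A d R C v ≤ T)
  rw [Finset.card_powersetCard, Finset.card_univ, Fintype.card_fin] at h
  exact_mod_cast h

/-- **Q1 has a negative answer**: no algorithm in the unit-cost arithmetic model computes
`F_{RC} v` in time `o(m²)`, neither in expectation over `R` nor with high probability over `R`. -/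
theorem result : ¬ Question1 := by
  classical
  rintro ⟨A, T, hA, hT, h⟩
  have hT' := hT.bound (show (0 : ℝ) < 1 / 100 by norm_num)
  have hex : ∃ m : ℕ, (‖T m‖ ≤ 1 / 100 * ‖(m : ℝ) ^ 2‖ ∧ 10 ≤ m) ∧
      ((∀ d : ℕ, m ≤ d → ∀ C : Finset (Fin d), C.card = m → ∀ v : C → ℂ,
        expectedSteps A m d C v ≤ T m) ∨
      (∃ c : ℝ, 0 < c ∧ ∀ d : ℕ, m ≤ d → ∀ C : Finset (Fin d), C.card = m →
        ∀ v : C → ℂ, probExceeds A m d C v (T m) ≤ (m : ℝ) ^ (-c))) := by
    rcases h with ha | ⟨c, hc, hb⟩
    · obtain ⟨m, h1, h2⟩ := ((hT'.and (eventually_ge_atTop 10)).and ha).exists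
      exact ⟨m, h1, Or.inl h2⟩
    · obtain ⟨m, h1, h2⟩ := ((hT'.and (eventually_ge_atTop 10)).and hb).exists
      exact ⟨m, h1, Or.inr ⟨c, hc, h2⟩⟩
  clear h
  obtain ⟨m, ⟨hm, hm10⟩, h⟩ := hex
  have hm10' : (10 : ℝ) ≤ m := by exact_mod_cast hm10
  have hmsq : (0 : ℝ) ≤ (m : ℝ) ^ 2 := by positivity
  have hTm : T m ≤ (m : ℝ) ^ 2 / 100 := by
    have h1 := le_abs_self (T m)
    rw [Real.norm_eq_abs, Real.norm_eq_abs, abs_of_nonneg hmsq] at hm
    linarith
  set T0 := m ^ 2 / 5 with hT0
  have hm100 : 100 ≤ m ^ 2 := by nlinarith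
  have h4 : 4 * T0 + 1 < m ^ 2 := by omega
  have hT0' : (m : ℝ) ^ 2 / 10 ≤ T0 := by
    have h1 : m ^ 2 ≤ 10 * T0 := by omega
    have h2 : ((m ^ 2 : ℕ) : ℝ) ≤ ((10 * T0 : ℕ) : ℝ) := by exact_mod_cast h1
    push_cast at h2
    linarith
  rcases h with ha | ⟨c, hc, hb⟩
  · obtain ⟨d, hmd, C, hC, v, hcount⟩ := lower_bound A hA h4 (show (0 : ℝ) < 1 / 2 by norm_num)
    have h1 := ha d hmd C hC v
    have hsplit := card_split A m d C v T0
    have hch : (0 : ℝ) < d.choose m := by exact_mod_cast Nat.choose_pos hmd
    rw [expectedSteps, div_le_iff₀ hch] at h1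
    have h2 : (((Finset.univ : Finset (Fin d)).powersetCard m).filter
        (fun R => ¬ steps A d R C v ≤ T0)).card * (T0 : ℝ) ≤
        ∑ R ∈ (Finset.univ : Finset (Fin d)).powersetCard m, (steps A d R C v : ℝ) := by
      calc _ = ∑ R ∈ ((Finset.univ : Finset (Fin d)).powersetCard m).filter
            (fun R => ¬ steps A d R C v ≤ T0), (T0 : ℝ) := by
            rw [Finset.sum_const, nsmul_eq_mul]
        _ ≤ ∑ R ∈ ((Finset.univ : Finset (Fin d)).powersetCard m).filter
            (fun R => ¬ steps A d R C v ≤ T0), (steps A d R C v : ℝ) := by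
            refine Finset.sum_le_sum fun R hR => ?_
            have := (Finset.mem_filter.1 hR).2
            exact_mod_cast (not_le.1 this).le
        _ ≤ _ := Finset.sum_le_sum_of_subset_of_nonneg (Finset.filter_subset _ _)
            fun _ _ _ => by positivity
    have h3 : (1 / 2 : ℝ) * d.choose m ≤ (((Finset.univ : Finset (Fin d)).powersetCard m).filter
        (fun R => ¬ steps A d R C v ≤ T0)).card := by linarith
    have hT0pos : (0 : ℝ) ≤ T0 := by positivity
    have h5 := mul_le_mul_of_nonneg_right h3 hT0pos
    have h6 := mul_le_mul_of_nonneg_right hTm hch.le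
    have h7 := mul_le_mul_of_nonneg_right hT0' hch.le
    have h8 : (0 : ℝ) < (m : ℝ) ^ 2 * d.choose m := by
      have : (0 : ℝ) < (m : ℝ) ^ 2 := by positivity
      positivity
    have h9 : (1 / 2 * (d.choose m : ℝ)) * (T0 : ℝ) = (1 / 2) * ((T0 : ℝ) * d.choose m) := by ring
    have h10 : (m : ℝ) ^ 2 / 100 * (d.choose m : ℝ) = ((m : ℝ) ^ 2 * d.choose m) / 100 := by ring
    have h11 : (m : ℝ) ^ 2 / 10 * (d.choose m : ℝ) = ((m : ℝ) ^ 2 * d.choose m) / 10 := by ring
    rw [h9] at h5
    rw [h10] at h6
    rw [h11] at h7
    linarith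
  · have hpow : (m : ℝ) ^ (-c) < 1 :=
      Real.rpow_lt_one_of_one_lt_of_neg (by linarith) (by linarith)
    obtain ⟨d, hmd, C, hC, v, hcount⟩ := lower_bound A hA h4
      (show (0 : ℝ) < (1 - (m : ℝ) ^ (-c)) / 2 by linarith)
    have h1 := hb d hmd C hC v
    have hsplit := card_split A m d C v T0
    have hch : (0 : ℝ) < d.choose m := by exact_mod_cast Nat.choose_pos hmd
    rw [probExceeds, div_le_iff₀ hch] at h1
    have h2 : ((((Finset.univ : Finset (Fin d)).powersetCard m).filter
        (fun R => ¬ steps A d R C v ≤ T0)).card : ℝ) ≤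
        (((Finset.univ : Finset (Fin d)).powersetCard m).filter
          (fun R => T m < (steps A d R C v : ℝ))).card := by
      have : (((Finset.univ : Finset (Fin d)).powersetCard m).filter
        (fun R => ¬ steps A d R C v ≤ T0)) ⊆
        (((Finset.univ : Finset (Fin d)).powersetCard m).filter
          (fun R => T m < (steps A d R C v : ℝ))) := by
        intro R hR
        rw [Finset.mem_filter] at hR ⊢
        refine ⟨hR.1, ?_⟩
        have h6 : (T0 : ℝ) < steps A d R C v := by exact_mod_cast not_le.1 hR.2
        have h7 : (100 : ℝ) ≤ (m : ℝ) ^ 2 := by exact_mod_cast hm100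
        linarith
      exact_mod_cast Finset.card_le_card this
    nlinarith

end Pool.Agent.Results.MP_d958de_lc.NoSubquadratic
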